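import Mathlib

/-! Helper lemma for KC-7: Gaussian pair sums against the number of close pairs. -/

set_option autoImplicit false
open scoped BigOperators Classical

namespace Pool.Agent.Helper4.KC

noncomputable def kd (d : ℤ) : ℝ := Real.exp (-|(d : ℝ)|)

lemma kd_nonneg (d : ℤ) : 0 ≤ kd d := (Real.exp_pos _).le

lemma kd_neg (d : ℤ) : kd (-d) = kd d := by simp [kd]

lemma summable_kd : Summable kd := by
  have h1 : Summable (fun n : ℕ => Real.exp (-(n : ℝ))) := by
    have := Real.summable_exp_neg_nat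
    simpa using this
  refine Summable.of_nat_of_neg ?_ ?_
  · refine h1.congr (fun n => ?_)
    simp [kd]
  · refine h1.congr (fun n => ?_)
    simp [kd]

noncomputable def C1 : ℝ := ∑' d : ℤ, kd d

lemma sum_kd_le (M : Finset ℤ) (m : ℤ) : ∑ m' ∈ M, kd (m - m') ≤ C1 := by
  have h : ∑ m' ∈ M, kd (m - m') = ∑ d ∈ M.image (fun m' => m - m'), kd d := by
    rw [Finset.sum_image]
    intro a _ b _ hab
    simp only at hab
    omega
  rw [h]
  exact summable_kd.sum_le_tsum _ (fun d _ => kd_nonneg d)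

lemma C1_nonneg : 0 ≤ C1 := tsum_nonneg kd_nonneg

theorem pair_sum_kd {ι : Type} (S : Finset ι) (m : ι → ℤ) :
    ∑ p ∈ S, ∑ q ∈ S, kd (m p - m q) ≤
      C1 * ((S ×ˢ S).filter (fun p => m p.1 = m p.2)).card := by
  set N : ℤ → ℝ := fun a => ((S.filter (fun q => m q = a)).card : ℝ) with hN
  set M := S.image m with hM
  have e1 : ∀ p : ι, ∑ q ∈ S, kd (m p - m q) = ∑ a ∈ M, N a * kd (m p - a) := by
    intro p
    rw [Finset.sum_comp (fun a => kd (m p - a)) m]
    refine Finset.sum_congr rfl (fun a _ => ?_)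
    rw [nsmul_eq_mul]
  have e2 : ∑ p ∈ S, ∑ q ∈ S, kd (m p - m q) = ∑ a ∈ M, N a * ∑ b ∈ M, N b * kd (a - b) := by
    rw [Finset.sum_congr rfl (fun p _ => e1 p)]
    rw [Finset.sum_comp (fun a => ∑ b ∈ M, N b * kd (a - b)) m]
    refine Finset.sum_congr rfl (fun a _ => ?_)
    rw [nsmul_eq_mul]
  have e3 : (((S ×ˢ S).filter (fun p => m p.1 = m p.2)).card : ℝ) = ∑ a ∈ M, N a * N a := by
    rw [Finset.card_filter, Nat.cast_sum, Finset.sum_product]
    have : ∀ p ∈ S, (∑ q ∈ S, (((if m p = m q then 1 else 0 : ℕ)) : ℝ)) = N (m p) := by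
      intro p _
      rw [hN]
      simp only
      rw [Finset.card_filter, Nat.cast_sum]
      refine Finset.sum_congr rfl (fun q _ => ?_)
      simp only [eq_comm]
    rw [Finset.sum_congr rfl this]
    rw [Finset.sum_comp (fun a => N a) m]
    refine Finset.sum_congr rfl (fun a _ => ?_)
    rw [nsmul_eq_mul]
  rw [e2, e3]
  have hNn : ∀ a, 0 ≤ N a := fun a => Nat.cast_nonneg _
  calc ∑ a ∈ M, N a * ∑ b ∈ M, N b * kd (a - b)
      = ∑ a ∈ M, ∑ b ∈ M, N a * N b * kd (a - b) := by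
        refine Finset.sum_congr rfl (fun a _ => ?_)
        rw [Finset.mul_sum]
        refine Finset.sum_congr rfl (fun b _ => ?_)
        ring
    _ ≤ ∑ a ∈ M, ∑ b ∈ M, ((N a * N a) * kd (a - b) / 2 + (N b * N b) * kd (b - a) / 2) := by
        refine Finset.sum_le_sum (fun a _ => Finset.sum_le_sum (fun b _ => ?_))
        have h1 : kd (b - a) = kd (a - b) := by rw [← kd_neg]; congr 1; ring
        rw [h1]
        have h2 := kd_nonneg (a - b)
        nlinarith [mul_nonneg (sq_nonneg (N a - N b)) h2]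
    _ = ∑ a ∈ M, ∑ b ∈ M, (N a * N a) * kd (a - b) := by
        have : ∑ a ∈ M, ∑ b ∈ M, (N b * N b) * kd (b - a) / 2 =
            ∑ a ∈ M, ∑ b ∈ M, (N a * N a) * kd (a - b) / 2 := Finset.sum_comm
        simp only [Finset.sum_add_distrib]
        rw [this, ← Finset.sum_add_distrib]
        refine Finset.sum_congr rfl (fun a _ => ?_)
        rw [← Finset.sum_add_distrib]
        refine Finset.sum_congr rfl (fun b _ => ?_)
        ring
    _ = ∑ a ∈ M, (N a * N a) * ∑ b ∈ M, kd (a - b) := by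
        refine Finset.sum_congr rfl (fun a _ => ?_)
        rw [Finset.mul_sum]
    _ ≤ ∑ a ∈ M, (N a * N a) * C1 := by
        refine Finset.sum_le_sum (fun a _ => ?_)
        exact mul_le_mul_of_nonneg_left (sum_kd_le M a) (mul_nonneg (hNn a) (hNn a))
    _ = C1 * ∑ a ∈ M, N a * N a := by
        rw [← Finset.sum_mul]; ring

/-- Gaussian pair sum is bounded by the number of pairs at distance at most one. -/
theorem pair_sum_gauss {ι : Type} (S : Finset ι) (y : ι → ℝ) :
    ∑ p ∈ S, ∑ q ∈ S, Real.exp (-(y p - y q) ^ 2 / 4) ≤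
      Real.exp 2 * C1 * ((S ×ˢ S).filter (fun p => |y p.1 - y p.2| ≤ 1)).card := by
  have h1 := pair_sum_kd S (fun p => ⌊y p⌋)
  have h2 : (((S ×ˢ S).filter (fun p => ⌊y p.1⌋ = ⌊y p.2⌋)).card : ℝ) ≤
      ((S ×ˢ S).filter (fun p => |y p.1 - y p.2| ≤ 1)).card := by
    norm_cast
    refine Finset.card_le_card (fun p hp => ?_)
    rw [Finset.mem_filter] at hp ⊢
    refine ⟨hp.1, ?_⟩
    have a1 := Int.floor_le (y p.1)
    have a2 := Int.lt_floor_add_one (y p.1)
    have b1 := Int.floor_le (y p.2)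
    have b2 := Int.lt_floor_add_one (y p.2)
    have h := hp.2
    rw [h] at a1 a2
    rw [abs_le]
    constructor <;> linarith
  have h3 : ∀ p q : ι, Real.exp (-(y p - y q) ^ 2 / 4) ≤ Real.exp 2 * kd (⌊y p⌋ - ⌊y q⌋) := by
    intro p q
    rw [kd, ← Real.exp_add]
    apply Real.exp_le_exp.mpr
    have a1 := Int.floor_le (y p)
    have a2 := Int.lt_floor_add_one (y p)
    have b1 := Int.floor_le (y q)
    have b2 := Int.lt_floor_add_one (y q)
    push_cast
    have h4 : |((⌊y p⌋ : ℝ) - ⌊y q⌋)| ≤ |y p - y q| + 1 := by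
      have : ((⌊y p⌋ : ℝ) - ⌊y q⌋) = (y p - y q) + ((y q - ⌊y q⌋) - (y p - ⌊y p⌋)) := by ring
      rw [this]
      refine (abs_add_le _ _).trans ?_
      gcongr
      rw [abs_le]
      constructor <;> linarith
    have h5 : |y p - y q| ≤ (y p - y q) ^ 2 / 4 + 1 := by
      rw [abs_le]
      constructor <;> nlinarith [sq_nonneg (y p - y q - 2), sq_nonneg (y p - y q + 2)]
    linarith
  calc ∑ p ∈ S, ∑ q ∈ S, Real.exp (-(y p - y q) ^ 2 / 4)
      ≤ ∑ p ∈ S, ∑ q ∈ S, Real.exp 2 * kd (⌊y p⌋ - ⌊y q⌋) :=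
        Finset.sum_le_sum (fun p _ => Finset.sum_le_sum (fun q _ => h3 p q))
    _ = Real.exp 2 * ∑ p ∈ S, ∑ q ∈ S, kd (⌊y p⌋ - ⌊y q⌋) := by
        rw [Finset.mul_sum]
        refine Finset.sum_congr rfl (fun p _ => ?_)
        rw [Finset.mul_sum]
    _ ≤ Real.exp 2 * (C1 * ((S ×ˢ S).filter (fun p => ⌊y p.1⌋ = ⌊y p.2⌋)).card) := by
        gcongr
    _ ≤ Real.exp 2 * (C1 * ((S ×ˢ S).filter (fun p => |y p.1 - y p.2| ≤ 1)).card) := by
        have := C1_nonneg
        gcongr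
    _ = _ := by ring

end Pool.Agent.Helper4.KC
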