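import Mathlib

/-! Sobolev-Gallagher inequality at spaced points with a Gaussian weight. -/

set_option autoImplicit false
open scoped BigOperators Classical
open MeasureTheory

namespace Pool.Agent.Helper4.KC

/-- one interval -/
theorem sobolev_one (h h' k : ℝ → ℝ) (hd : ∀ x, HasDerivAt h (h' x) x)
    (hk : Continuous k) (hh' : Continuous h') (hle : ∀ x, |h' x| ≤ k x) (u δ : ℝ) (hδ : 0 < δ) :
    h u ≤ δ⁻¹ * (∫ x in u..(u + δ), h x) + ∫ x in u..(u + δ), k x := by
  have hc : Continuous h := continuous_iff_continuousAt.mpr (fun x => (hd x).continuousAt)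
  have hk0 : ∀ x, 0 ≤ k x := fun x => (abs_nonneg _).trans (hle x)
  have key : ∀ t ∈ Set.Icc u (u + δ), h u - (∫ x in u..(u + δ), k x) ≤ h t := by
    intro t ht
    have h1 : ∫ x in u..t, h' x = h t - h u :=
      intervalIntegral.integral_eq_sub_of_hasDerivAt (fun x _ => hd x) (hh'.intervalIntegrable _ _)
    have h2 : -(∫ x in u..t, h' x) ≤ ∫ x in u..t, k x := by
      rw [← intervalIntegral.integral_neg]
      apply intervalIntegral.integral_mono_on ht.1 (hh'.neg.intervalIntegrable _ _)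
        (hk.intervalIntegrable _ _)
      intro x _
      exact (neg_le_abs _).trans (hle x)
    have h3 : ∫ x in u..t, k x ≤ ∫ x in u..(u + δ), k x := by
      apply intervalIntegral.integral_mono_interval le_rfl ht.1 ht.2 _ (hk.intervalIntegrable _ _)
      exact Filter.Eventually.of_forall hk0
    linarith
  have h4 : ∫ x in u..(u + δ), (h u - (∫ x in u..(u + δ), k x)) ≤ ∫ x in u..(u + δ), h x := by
    apply intervalIntegral.integral_mono_on (by linarith) (by simp) (hc.intervalIntegrable _ _)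
    exact key
  rw [intervalIntegral.integral_const, smul_eq_mul] at h4
  have h5 : (u + δ - u) = δ := by ring
  rw [h5] at h4
  have h6 : h u - (∫ x in u..(u + δ), k x) ≤ δ⁻¹ * ∫ x in u..(u + δ), h x := by
    rw [inv_mul_eq_div, le_div_iff₀ hδ]
    linarith
  linarith

/-- sum over spaced points in `[u0, u0+1]` -/
theorem sum_spaced_le (Φ : ℝ → ℝ) (hΦ : Continuous Φ) (hΦ0 : ∀ x, 0 ≤ Φ x) (U : Finset ℝ) (u0 δ : ℝ)
    (hδ : 0 < δ) (hδ1 : δ ≤ 1) (hU : ∀ u ∈ U, u0 ≤ u ∧ u ≤ u0 + 1)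
    (hs : ∀ u ∈ U, ∀ u' ∈ U, u ≠ u' → δ ≤ |u - u'|)
    (hint : Integrable (fun x => Real.exp (-(x - u0) ^ 2) * Φ x)) :
    ∑ u ∈ U, ∫ x in u..(u + δ), Φ x ≤
      Real.exp 4 * ∫ x, Real.exp (-(x - u0) ^ 2) * Φ x := by
  have e1 : ∀ u ∈ U, ∫ x in u..(u + δ), Φ x = ∫ x, (Set.Ioc u (u + δ)).indicator Φ x := by
    intro u _
    rw [intervalIntegral.integral_of_le (by linarith), integral_indicator measurableSet_Ioc]
  have i1 : ∀ u ∈ U, Integrable ((Set.Ioc u (u + δ)).indicator Φ) := by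
    intro u _
    rw [integrable_indicator_iff measurableSet_Ioc]
    exact (hΦ.intervalIntegrable u (u + δ)).1
  rw [Finset.sum_congr rfl e1, ← integral_finsetSum U i1, ← integral_const_mul]
  apply integral_mono
  · exact integrable_finsetSum U i1
  · exact hint.const_mul _
  intro x
  simp only
  by_cases hx : ∃ u ∈ U, x ∈ Set.Ioc u (u + δ)
  · obtain ⟨u, hu, hxu⟩ := hx
    rw [Finset.sum_eq_single u]
    · rw [Set.indicator_of_mem hxu]
      have h1 : 1 ≤ Real.exp 4 * Real.exp (-(x - u0) ^ 2) := by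
        rw [← Real.exp_add]
        apply Real.one_le_exp
        have a1 := (hU u hu).1
        have a2 := (hU u hu).2
        have b1 := hxu.1
        have b2 := hxu.2
        nlinarith
      calc Φ x = 1 * Φ x := (one_mul _).symm
        _ ≤ (Real.exp 4 * Real.exp (-(x - u0) ^ 2)) * Φ x := by gcongr; exact hΦ0 x
        _ = _ := by ring
    · intro v hv hvu
      apply Set.indicator_of_notMem
      intro hxv
      have := hs v hv u hu hvu
      have b1 := hxu.1
      have b2 := hxu.2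
      have c1 := hxv.1
      have c2 := hxv.2
      rcases abs_cases (v - u) with h | h <;> linarith
    · intro h
      exact absurd hu h
  · push Not at hx
    rw [Finset.sum_eq_zero]
    · have := hΦ0 x
      positivity
    · intro u hu
      exact Set.indicator_of_notMem (hx u hu) _

/-- Gallagher with Gaussian weight for a complex valued function. -/
theorem gallagher (g g' : ℝ → ℂ) (hd : ∀ x, HasDerivAt g (g' x) x) (hg' : Continuous g')
    (U : Finset ℝ) (u0 T : ℝ) (hT : 1 ≤ T) (hU : ∀ u ∈ U, u0 ≤ u ∧ u ≤ u0 + 1)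
    (hs : ∀ u ∈ U, ∀ u' ∈ U, u ≠ u' → 1 / T ≤ |u - u'|)
    (hint : Integrable (fun x => Real.exp (-(x - u0) ^ 2) * ‖g x‖ ^ 2))
    (hint' : Integrable (fun x => Real.exp (-(x - u0) ^ 2) * ‖g' x‖ ^ 2)) :
    ∑ u ∈ U, ‖g u‖ ^ 2 ≤ Real.exp 4 * (2 * T * (∫ x, Real.exp (-(x - u0) ^ 2) * ‖g x‖ ^ 2) +
      T⁻¹ * ∫ x, Real.exp (-(x - u0) ^ 2) * ‖g' x‖ ^ 2) := by
  have hT0 : 0 < T := by linarith
  have hgc : Continuous g := continuous_iff_continuousAt.mpr (fun x => (hd x).continuousAt)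
  set Φ : ℝ → ℝ := fun x => 2 * T * ‖g x‖ ^ 2 + T⁻¹ * ‖g' x‖ ^ 2 with hΦ
  have hΦc : Continuous Φ := by
    rw [hΦ]; fun_prop
  have hΦ0 : ∀ x, 0 ≤ Φ x := fun x => by rw [hΦ]; positivity
  have hδ : (0 : ℝ) < 1 / T := by positivity
  have hδ1 : 1 / T ≤ 1 := by rw [div_le_one hT0]; exact hT
  have hintΦ : Integrable (fun x => Real.exp (-(x - u0) ^ 2) * Φ x) := by
    have := (hint.const_mul (2 * T)).add (hint'.const_mul T⁻¹)
    refine this.congr (Filter.Eventually.of_forall (fun x => ?_))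
    simp only [Pi.add_apply, hΦ]
    ring
  have h1 := sum_spaced_le Φ hΦc hΦ0 U u0 (1 / T) hδ hδ1 hU hs hintΦ
  have h2 : ∀ u ∈ U, ‖g u‖ ^ 2 ≤ ∫ x in u..(u + 1 / T), Φ x := by
    intro u _
    have hds : ∀ x, HasDerivAt (fun y => ‖g y‖ ^ 2) (2 * inner ℝ (g x) (g' x)) x := fun x =>
      (hd x).norm_sq
    have hc1 : Continuous (fun x => 2 * inner ℝ (g x) (g' x)) := by fun_prop
    have h3 := sobolev_one (fun y => ‖g y‖ ^ 2) (fun x => 2 * inner ℝ (g x) (g' x))
      (fun x => T * ‖g x‖ ^ 2 + T⁻¹ * ‖g' x‖ ^ 2) hds (by fun_prop) hc1 (by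
        intro x
        rw [abs_mul, abs_two]
        have h4 := abs_real_inner_le_norm (g x) (g' x)
        have h5 : 2 * (‖g x‖ * ‖g' x‖) ≤ T * ‖g x‖ ^ 2 + T⁻¹ * ‖g' x‖ ^ 2 := by
          have h6 : 0 ≤ T⁻¹ * (T * ‖g x‖ - ‖g' x‖) ^ 2 := by positivity
          have h7 : T⁻¹ * (T * ‖g x‖ - ‖g' x‖) ^ 2 =
              T * ‖g x‖ ^ 2 + T⁻¹ * ‖g' x‖ ^ 2 - 2 * (‖g x‖ * ‖g' x‖) := by
            field_simp
            ring
          linarith
        linarith) u (1 / T) hδ
    refine h3.trans (le_of_eq ?_)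
    rw [one_div, inv_inv, ← intervalIntegral.integral_const_mul, ← intervalIntegral.integral_add]
    · apply intervalIntegral.integral_congr
      intro x _
      simp only [hΦ]
      ring
    · exact Continuous.intervalIntegrable (by fun_prop) _ _
    · exact Continuous.intervalIntegrable (by fun_prop) _ _
  refine (Finset.sum_le_sum h2).trans (h1.trans (le_of_eq ?_))
  congr 1
  rw [← integral_const_mul, ← integral_const_mul, ← integral_add (hint.const_mul _) (hint'.const_mul _)]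
  apply integral_congr_ae
  refine Filter.Eventually.of_forall (fun x => ?_)
  simp only [hΦ]
  ring

end Pool.Agent.Helper4.KC
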