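import Pool.Agent.Helper60.KS.St
import Pool.Agent.Helper4.KC.Count
import Pool.Agent.Helper4.KC.Gallagher

/-! KC-7: fourth moment over spaced points by additive energy. -/

set_option autoImplicit false
open scoped BigOperators Classical ComplexConjugate
open MeasureTheory

namespace Pool.Agent.Helper4.KC

theorem gauss_mean {ι : Type} (S : Finset ι) (a w : ι → ℂ) (u0 K A : ℝ) (hu0 : 0 ≤ u0) (hK0 : K ≤ 0)
    (hA : ∀ p ∈ S, ‖a p‖ ≤ A) (hw : ∀ p ∈ S, -2 ≤ (w p).re ∧ (w p).re ≤ K) :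
    Integrable (fun x : ℝ => Real.exp (-(x - u0) ^ 2) * ‖∑ p ∈ S, a p * Complex.exp (w p * x)‖ ^ 2) ∧
    ∫ x : ℝ, Real.exp (-(x - u0) ^ 2) * ‖∑ p ∈ S, a p * Complex.exp (w p * x)‖ ^ 2 ≤
      Real.sqrt Real.pi * Real.exp 4 * A ^ 2 * Real.exp (2 * K * u0) *
        ∑ p ∈ S, ∑ q ∈ S, Real.exp (-((w p).im - (w q).im) ^ 2 / 4) := by
  set P : ι → ι → ℝ → ℂ := fun p q x => Complex.exp ((-1 : ℂ) * (x : ℂ) ^ 2 +
    ((2 * u0 : ℝ) + w p + conj (w q)) * (x : ℂ) + ((-(u0 ^ 2) : ℝ) : ℂ)) with hP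
  have key : ∀ x : ℝ, ((Real.exp (-(x - u0) ^ 2) *
      ‖∑ p ∈ S, a p * Complex.exp (w p * x)‖ ^ 2 : ℝ) : ℂ) =
      ∑ p ∈ S, ∑ q ∈ S, (a p * conj (a q)) * P p q x := by
    intro x
    push_cast
    rw [← Complex.mul_conj', map_sum, Finset.sum_mul_sum, Finset.mul_sum]
    refine Finset.sum_congr rfl (fun p _ => ?_)
    rw [Finset.mul_sum]
    refine Finset.sum_congr rfl (fun q _ => ?_)
    rw [map_mul, ← Complex.exp_conj, map_mul, Complex.conj_ofReal, hP]
    simp only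
    have : Complex.exp (-((x : ℂ) - u0) ^ 2) * (a p * Complex.exp (w p * x) *
        (conj (a q) * Complex.exp (conj (w q) * x))) =
        (a p * conj (a q)) * (Complex.exp (-((x : ℂ) - u0) ^ 2) * Complex.exp (w p * x) *
          Complex.exp (conj (w q) * x)) := by ring
    rw [this, ← Complex.exp_add, ← Complex.exp_add]
    congr 2
    push_cast
    ring
  have hPi : ∀ p q : ι, Integrable (P p q) := fun p q =>
    integrable_cexp_quadratic' (by simp) _ _
  have hint : Integrable (fun x : ℝ => ∑ p ∈ S, ∑ q ∈ S, (a p * conj (a q)) * P p q x) :=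
    integrable_finsetSum _ (fun p _ => integrable_finsetSum _ (fun q _ => (hPi p q).const_mul _))
  have hintC : Integrable (fun x : ℝ => ((Real.exp (-(x - u0) ^ 2) *
      ‖∑ p ∈ S, a p * Complex.exp (w p * x)‖ ^ 2 : ℝ) : ℂ)) :=
    hint.congr (Filter.Eventually.of_forall (fun x => (key x).symm))
  have hintR : Integrable (fun x : ℝ => Real.exp (-(x - u0) ^ 2) *
      ‖∑ p ∈ S, a p * Complex.exp (w p * x)‖ ^ 2) := by
    have := hintC.re
    simpa only [RCLike.re_to_complex, Complex.ofReal_re] using this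
  refine ⟨hintR, ?_⟩
  have hnn : 0 ≤ ∫ x : ℝ, Real.exp (-(x - u0) ^ 2) *
      ‖∑ p ∈ S, a p * Complex.exp (w p * x)‖ ^ 2 := by
    apply integral_nonneg
    intro x
    simp only [Pi.zero_apply]
    positivity
  have e1 : ((∫ x : ℝ, Real.exp (-(x - u0) ^ 2) *
      ‖∑ p ∈ S, a p * Complex.exp (w p * x)‖ ^ 2 : ℝ) : ℂ) =
      ∑ p ∈ S, ∑ q ∈ S, (a p * conj (a q)) * ∫ x : ℝ, P p q x := by
    rw [← integral_complex_ofReal]
    rw [integral_congr_ae (Filter.Eventually.of_forall key)]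
    rw [integral_finsetSum _ (fun p _ => integrable_finsetSum _ (fun q _ => (hPi p q).const_mul _))]
    refine Finset.sum_congr rfl (fun p _ => ?_)
    rw [integral_finsetSum _ (fun q _ => (hPi p q).const_mul _)]
    refine Finset.sum_congr rfl (fun q _ => ?_)
    rw [integral_const_mul]
  have e2 : ∀ p ∈ S, ∀ q ∈ S, ‖∫ x : ℝ, P p q x‖ ≤
      Real.sqrt Real.pi * Real.exp 4 * Real.exp (2 * K * u0) *
        Real.exp (-((w p).im - (w q).im) ^ 2 / 4) := by
    intro p hp q hq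
    rw [hP]
    simp only
    rw [integral_cexp_quadratic (by simp)]
    rw [norm_mul]
    have f1 : ‖((Real.pi : ℂ) / -(-1 : ℂ)) ^ (1 / 2 : ℂ)‖ = Real.sqrt Real.pi := by
      rw [neg_neg, div_one]
      rw [Complex.norm_cpow_eq_rpow_re_of_pos Real.pi_pos]
      rw [Real.sqrt_eq_rpow]
      norm_num
    rw [f1, mul_assoc, mul_assoc]
    apply mul_le_mul_of_nonneg_left _ (Real.sqrt_nonneg _)
    rw [Complex.norm_exp, ← Real.exp_add, ← Real.exp_add]
    apply Real.exp_le_exp.mpr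
    have f2 : (((-(u0 ^ 2) : ℝ) : ℂ) - ((2 * u0 : ℝ) + w p + conj (w q)) ^ 2 / (4 * (-1 : ℂ))) =
        ((u0 : ℝ) : ℂ) * (w p + conj (w q)) + (w p + conj (w q)) ^ 2 * ((1 / 4 : ℝ) : ℂ) := by
      push_cast
      ring
    rw [f2]
    obtain ⟨h1, h2⟩ := hw p hp
    obtain ⟨h3, h4⟩ := hw q hq
    rw [Complex.add_re, Complex.re_ofReal_mul, Complex.re_mul_ofReal, sq]
    simp only [Complex.add_re, Complex.conj_re, Complex.mul_re, Complex.add_im, Complex.conj_im]
    have g1 : u0 * ((w p).re + (w q).re) ≤ 2 * K * u0 := by nlinarith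
    have g2 : ((w p).re + (w q).re) * ((w p).re + (w q).re) ≤ 16 := by nlinarith
    nlinarith
  have e3 : ∫ x : ℝ, Real.exp (-(x - u0) ^ 2) *
      ‖∑ p ∈ S, a p * Complex.exp (w p * x)‖ ^ 2 =
      ‖∑ p ∈ S, ∑ q ∈ S, (a p * conj (a q)) * ∫ x : ℝ, P p q x‖ := by
    rw [← e1, Complex.norm_real, Real.norm_of_nonneg hnn]
  rw [e3]
  refine (norm_sum_le _ _).trans ?_
  rw [Finset.mul_sum]
  refine Finset.sum_le_sum (fun p hp => ?_)
  refine (norm_sum_le _ _).trans ?_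
  rw [Finset.mul_sum]
  refine Finset.sum_le_sum (fun q hq => ?_)
  rw [norm_mul, norm_mul, RCLike.norm_conj]
  have hA0 : 0 ≤ A := (norm_nonneg _).trans (hA p hp)
  calc ‖a p‖ * ‖a q‖ * ‖∫ x : ℝ, P p q x‖ ≤ A * A * (Real.sqrt Real.pi * Real.exp 4 *
        Real.exp (2 * K * u0) * Real.exp (-((w p).im - (w q).im) ^ 2 / 4)) := by
        have := hA p hp
        have := hA q hq
        have := e2 p hp q hq
        gcongr
    _ = _ := by ring

end Pool.Agent.Helper4.KC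

open Pool.Agent.Helper4.KC in
/-- KC-7 -/
theorem Pool.Agent.Helper4.KC.fourthU : Pool.Agent.Helper60.KS.FourthU := by
  have hC1 : 0 < C1 := by
    have h1 := sum_kd_le {0} 0
    simp only [Finset.sum_singleton, sub_zero] at h1
    have h2 : kd 0 = 1 := by simp [kd]
    linarith
  refine ⟨18 * Real.exp 4 * (Real.sqrt Real.pi * Real.exp 4) * (Real.exp 2 * C1), by positivity, ?_⟩
  intro Z c B b T u0 U hT hu0 hb hB hZ hU hs
  have hT0 : 0 < T := by linarith
  set S := Z ×ˢ Z with hS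
  set a : ℂ × ℂ → ℂ := fun p => c p.1 * c p.2 with ha
  set w : ℂ × ℂ → ℂ := fun p => p.1 + p.2 - 2 with hw
  set g : ℝ → ℂ := fun x => ∑ p ∈ S, a p * Complex.exp (w p * x) with hg
  set g' : ℝ → ℂ := fun x => ∑ p ∈ S, (a p * w p) * Complex.exp (w p * x) with hg'
  have hsq : ∀ x : ℝ, (∑ ρ ∈ Z, c ρ * Complex.exp ((ρ - 1) * (x : ℂ))) ^ 2 = g x := by
    intro x
    rw [sq, Finset.sum_mul_sum, hg, hS]
    simp only
    rw [Finset.sum_product]
    refine Finset.sum_congr rfl (fun p _ => Finset.sum_congr rfl (fun q _ => ?_))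
    rw [ha, hw]
    simp only
    have : (p + q - 2) * (x : ℂ) = (p - 1) * x + (q - 1) * x := by ring
    rw [this, Complex.exp_add]
    ring
  have hfour : ∀ u : ℝ, ‖∑ ρ ∈ Z, c ρ * Complex.exp ((ρ - 1) * (u : ℂ))‖ ^ 4 = ‖g u‖ ^ 2 := by
    intro u
    rw [← hsq u, norm_pow]
    ring
  have hwre : ∀ p ∈ S, -2 ≤ (w p).re ∧ (w p).re ≤ 2 * (b - 1) := by
    intro p hp
    rw [hS, Finset.mem_product] at hp
    obtain ⟨h1, h2, _, _⟩ := hZ p.1 hp.1
    obtain ⟨h3, h4, _, _⟩ := hZ p.2 hp.2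
    rw [hw]
    simp only [Complex.sub_re, Complex.add_re]
    have : (2 : ℂ).re = 2 := rfl
    rw [this]
    constructor <;> linarith
  have haB : ∀ p ∈ S, ‖a p‖ ≤ B ^ 2 := by
    intro p hp
    rw [hS, Finset.mem_product] at hp
    obtain ⟨_, _, _, h1⟩ := hZ p.1 hp.1
    obtain ⟨_, _, _, h2⟩ := hZ p.2 hp.2
    rw [ha]
    simp only [norm_mul]
    rw [sq]
    gcongr
  have hwB : ∀ p ∈ S, ‖w p‖ ≤ 4 * T := by
    intro p hp
    have h5 := hwre p hp
    rw [hS, Finset.mem_product] at hp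
    obtain ⟨h1, _, h1', _⟩ := hZ p.1 hp.1
    obtain ⟨h2, _, h2', _⟩ := hZ p.2 hp.2
    refine (Complex.norm_le_abs_re_add_abs_im _).trans ?_
    have h6 : |(w p).re| ≤ 2 := by rw [abs_le]; constructor <;> linarith
    have h7 : |(w p).im| ≤ 2 * T := by
      rw [hw]
      simp only [Complex.sub_im, Complex.add_im]
      have : (2 : ℂ).im = 0 := rfl
      rw [this, sub_zero]
      exact (abs_add_le _ _).trans (by linarith)
    linarith
  have hawB : ∀ p ∈ S, ‖a p * w p‖ ≤ B ^ 2 * (4 * T) := by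
    intro p hp
    rw [norm_mul]
    have := haB p hp
    have := hwB p hp
    gcongr
  have hd : ∀ x : ℝ, HasDerivAt g (g' x) x := by
    intro x
    rw [hg, hg']
    apply HasDerivAt.fun_sum
    intro p _
    have h1 : HasDerivAt (fun y : ℝ => w p * (y : ℂ)) (w p) x := by
      have := (hasDerivAt_id x).ofReal_comp.const_mul (w p)
      simpa using this
    have h2 := h1.cexp.const_mul (a p)
    refine h2.congr_deriv ?_
    ring
  have hg'c : Continuous g' := by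
    rw [hg']
    fun_prop
  obtain ⟨i1, b1⟩ := gauss_mean S a w u0 (2 * (b - 1)) (B ^ 2) hu0 (by linarith) haB hwre
  obtain ⟨i2, b2⟩ := gauss_mean S (fun p => a p * w p) w u0 (2 * (b - 1)) (B ^ 2 * (4 * T)) hu0
    (by linarith) hawB hwre
  have hG := gallagher g g' hd hg'c U u0 T hT hU hs i1 i2
  have hE : ∑ p ∈ S, ∑ q ∈ S, Real.exp (-((w p).im - (w q).im) ^ 2 / 4) ≤
      Real.exp 2 * C1 * (Pool.Agent.Helper60.KS.EZ Z) := by
    have h1 := pair_sum_gauss S (fun p => (w p).im)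
    refine h1.trans (le_of_eq ?_)
    congr 2
    rw [Pool.Agent.Helper60.KS.EZ, hS]
    congr 1
    apply Finset.filter_congr
    intro p _
    have : (w p.1).im - (w p.2).im = p.1.1.im + p.1.2.im - p.2.1.im - p.2.2.im := by
      rw [hw]
      simp only [Complex.sub_im, Complex.add_im]
      ring
    rw [this]
  set E : ℝ := Real.exp 2 * C1 * (Pool.Agent.Helper60.KS.EZ Z) with hEdef
  have hexp : Real.exp (2 * (2 * (b - 1)) * u0) = Real.exp (4 * (b - 1) * u0) := by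
    congr 1; ring
  rw [hexp] at b1 b2
  calc ∑ u ∈ U, ‖∑ ρ ∈ Z, c ρ * Complex.exp ((ρ - 1) * (u : ℂ))‖ ^ 4
      = ∑ u ∈ U, ‖g u‖ ^ 2 := Finset.sum_congr rfl (fun u _ => hfour u)
    _ ≤ _ := hG
    _ ≤ Real.exp 4 * (2 * T * (Real.sqrt Real.pi * Real.exp 4 * (B ^ 2) ^ 2 *
          Real.exp (4 * (b - 1) * u0) * E) +
        T⁻¹ * (Real.sqrt Real.pi * Real.exp 4 * (B ^ 2 * (4 * T)) ^ 2 *
          Real.exp (4 * (b - 1) * u0) * E)) := by
        gcongr
        · exact b1.trans (by gcongr)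
        · exact b2.trans (by gcongr)
    _ = _ := by
        rw [hEdef]
        field_simp
        ring
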